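import Pool.Agent.Helper26_BSN.Stmts
import Pool.Agent.Helper26_BSN.DerJ
import Pool.Agent.Helper26_BSN.FactW

/-!
# Module CL1: first clause of the sentence in the whole order
-/

namespace Pool.Agent.BSN.H20

open Filter Cardinal Pool.Agent.BSig Pool.Agent.BSN

variable {τ : Tower}

theorem der_mono {φ : (Fin 5 → (MMt τ)) → Prop} {α α' k k' y y' F t : (MMt τ)} (hα : α ≤ α')
    (hk : k ≤ k') (hy : y' ≤ y) (h : Der φ α k y F t) : Der φ α' k' y' F t := by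
  obtain ⟨K, hK, i, hi, P, hP, Q, hQ, w, hw, h1, h2, h3, h4, h5⟩ := h
  refine ⟨K, hK.trans hα, i, hi.trans hα, P, hP.trans hα, Q, hQ.trans hα, w, hw.trans hα, h1, h2,
    h3, ?_, ?_⟩
  · intro x hx hxP
    obtain ⟨z, hz, h6⟩ := h4 x hx hxP
    exact ⟨z, hz, h6.imp id fun h => ⟨h.1, h.2.trans hk⟩⟩
  · intro x hx hxQ
    obtain ⟨z, hz, h6⟩ := h5 x hx hxQ
    exact ⟨z, hz, h6.imp id fun h => ⟨h.1, hy.trans h.2⟩⟩

/-- The reduction of `C` to `B ⊕ L`. -/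
def PhiL (φ : (Fin 5 → (MMt τ)) → Prop) (E : (MMt τ)) (v : Fin 4 → (MMt τ)) : Prop :=
  ∃ l, ∃ a, ∃ w, ∃ F, (Mem (2 * pr l a + 1) (v 2) ∧ Mem (pr l w) E ∧ F ≤ a ∧
    2 * v 0 + v 1 ≤ a ∧ Der φ a l w F (2 * v 0 + v 1) ∧
    (∀ z, z ≤ F → (Mem (2 * z + 1) F → Mem (2 * z) (v 2))) ∧
    (∀ z, z ≤ F → (Mem (2 * z) F → Mem (2 * z) (v 3))))

theorem sigma_PhiL {φ : (Fin 5 → (MMt τ)) → Prop} (hφ : IsDelta0 φ) (E : (MMt τ)) :
    IsSigma 1 (PhiL φ E) := by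
  have h0 : IsTerm (fun v : Fin 4 → (MMt τ) => v 0) := IsTerm.var 0
  have h1 : IsTerm (fun v : Fin 4 → (MMt τ) => v 1) := IsTerm.var 1
  have h2 : IsTerm (fun v : Fin 4 → (MMt τ) => v 2) := IsTerm.var 2
  have h3 : IsTerm (fun v : Fin 4 → (MMt τ) => v 3) := IsTerm.var 3
  have ht : IsTerm (fun v : Fin 4 → (MMt τ) => 2 * v 0 + v 1) := h0.twomul.add h1
  refine Sig1.isSigma ?_
  refine Sig1.ex ?_
  refine Sig1.ex ?_
  refine Sig1.ex ?_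
  refine Sig1.ex ?_
  refine Sig1.of_delta0 ?_
  -- variables: 0 = F, 1 = w, 2 = a, 3 = l
  refine (IsDelta0.mem ((IsTerm.pr (IsTerm.var 3) (IsTerm.var 2)).twomul.addc 1)
    h2.tail.tail.tail.tail).and ?_
  refine (IsDelta0.mem (IsTerm.pr (IsTerm.var 3) (IsTerm.var 1)) (IsTerm.param E)).and ?_
  refine (IsDelta0.le (IsTerm.var 0) (IsTerm.var 2)).and ?_
  refine (IsDelta0.le ht.tail.tail.tail.tail (IsTerm.var 2)).and ?_
  refine (hφ.dern (IsTerm.var 2) (IsTerm.var 3) (IsTerm.var 1) (IsTerm.var 0)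
    ht.tail.tail.tail.tail).and ?_
  refine IsDelta0.and ?_ ?_
  · refine IsDelta0.all (IsTerm.var 0) ?_
    exact (IsDelta0.mem ((IsTerm.var 0).twomul.addc 1) (IsTerm.var 1)).imp
      (IsDelta0.mem (IsTerm.var 0).twomul h2.tail.tail.tail.tail.tail)
  · refine IsDelta0.all (IsTerm.var 0) ?_
    exact (IsDelta0.mem (IsTerm.var 0).twomul (IsTerm.var 1)).imp
      (IsDelta0.mem (IsTerm.var 0).twomul h3.tail.tail.tail.tail.tail)

/-- The positive part of the certificate. -/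
theorem exists_pos (c F : (MMt τ)) : ∃ p : (MMt τ), ∀ u, Mem u p ↔
    u = c ∨ ∃ z, z ≤ u ∧ (u = 2 * z ∧ Mem (2 * z + 1) F) := by
  have hi : Int1 (fun u : (MMt τ) => u = c ∨ ∃ z, z ≤ u ∧ (u = 2 * z ∧ Mem (2 * z + 1) F)) := by
    refine Int1.of_delta0 ?_
    refine (IsDelta0.eq (IsTerm.var 0) (IsTerm.param c)).or ?_
    refine IsDelta0.ex (IsTerm.var 0) ?_
    exact (IsDelta0.eq (IsTerm.var 1) (IsTerm.var 0).twomul).and
      (IsDelta0.mem ((IsTerm.var 0).twomul.addc 1) (IsTerm.param F))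
  obtain ⟨p, -, hp⟩ := hi.code (c + 1 + F)
  refine ⟨p, fun u => ?_⟩
  rw [hp]
  refine ⟨fun h => h.2, fun h => ⟨?_, h⟩⟩
  rcases h with rfl | ⟨z, -, rfl, h⟩
  · exact lt_of_lt_of_le ((PAExp.discrete _ _).2 le_rfl) (le_add_right' _ _)
  · have h1 := mem_lt h
    have h2 : 2 * z < F := lt_trans ((PAExp.discrete _ _).2 le_rfl) h1
    exact lt_of_lt_of_le h2 (le_add_left' _ _)

/-- The negative part of the certificate. -/
theorem exists_neg (F : (MMt τ)) : ∃ q : (MMt τ), ∀ u, Mem u q ↔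
    ∃ z, z ≤ u ∧ (u = 2 * z ∧ Mem (2 * z) F) := by
  have hi : Int1 (fun u : (MMt τ) => ∃ z, z ≤ u ∧ (u = 2 * z ∧ Mem (2 * z) F)) := by
    refine Int1.of_delta0 ?_
    refine IsDelta0.ex (IsTerm.var 0) ?_
    exact (IsDelta0.eq (IsTerm.var 1) (IsTerm.var 0).twomul).and
      (IsDelta0.mem (IsTerm.var 0).twomul (IsTerm.param F))
  obtain ⟨q, -, hq⟩ := hi.code F
  refine ⟨q, fun u => ?_⟩
  rw [hq]
  refine ⟨fun h => h.2, fun h => ⟨?_, h⟩⟩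
  obtain ⟨z, -, rfl, h⟩ := h
  exact mem_lt h

theorem claim1 (hthr : ThrStmt τ) (hdj : DerJoin τ) (hcode : CodeStmt τ) : Claim1 τ := by
  intro B C hred hB hC
  obtain ⟨φ, hvia⟩ := hdj.1 C B hred
  choose v hv using hthr φ C B hvia hB hC
  obtain ⟨E, hE⟩ := hcode.2.1 v
  refine ⟨PhiL φ E, sigma_PhiL hvia.1 E, fun K i hi => ?_⟩
  rw [← H3.fact_iff C hi]
  constructor
  · intro hfact
    obtain ⟨l, y, F, hy, hT, hF, hD⟩ := (hdj.2 φ C B hvia _).1 hfact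
    obtain ⟨l1, h1⟩ := exists_le_aa (2 * K + i)
    have hl : l ≤ l + l1 := by omega
    have hD' : Der φ ((aat τ) (l + l1)) ((l + l1 : ℕ) : (MMt τ)) ((v (l + l1) : ℕ) : (MMt τ)) F (2 * K + i) :=
      der_mono (aa_mono hl) (natCast_le.2 hl) (hy _).le hD
    obtain ⟨p, hp⟩ := exists_pos (2 * pr ((l + l1 : ℕ) : (MMt τ)) ((aat τ) (l + l1)) + 1) F
    obtain ⟨q, hq⟩ := exists_neg F
    refine ⟨p, q, ⟨((l + l1 : ℕ) : (MMt τ)), (aat τ) (l + l1), ((v (l + l1) : ℕ) : (MMt τ)), F, ?_, ?_, ?_, ?_,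
      hD', ?_, ?_⟩, ?_, ?_⟩
    · exact (hp _).2 (Or.inl rfl)
    · exact (hE _ _).2 rfl
    · exact hF.trans (aa_mono hl)
    · exact h1 _ (by omega)
    · intro z _ hz
      exact (hp _).2 (Or.inr ⟨z, H92.le_two z, rfl, hz⟩)
    · intro z _ hz
      exact (hq _).2 ⟨z, H92.le_two z, rfl, hz⟩
    · intro u hu
      rcases (hp u).1 hu with rfl | ⟨z, -, rfl, hz⟩
      · exact H92.mem_jn_odd.2 ⟨l + l1, rfl⟩
      · exact H92.mem_jn_even.2 ((hT z).1 hz)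
    · intro u hu
      obtain ⟨z, -, rfl, hz⟩ := (hq u).1 hu
      intro hc
      exact (hT z).2 hz (H92.mem_jn_even.1 hc)
  · rintro ⟨p, q, ⟨l, a, w, F, h1, h2, h3, h4, h5, h6, h7⟩, hp, hq⟩
    obtain ⟨l0, h8⟩ := H92.mem_jn_odd.1 (hp h1)
    obtain ⟨rfl, rfl⟩ := pr_inj.1 h8
    have h9 : w = ((v l0 : ℕ) : (MMt τ)) := (hE l0 w).1 h2
    subst h9
    refine hv l0 F (2 * K + i) h3 h4 (fun z => ⟨fun hz => ?_, fun hz => ?_⟩) h5
    · have hz' : z ≤ F := ((H92.le_two z).trans (le_add_right' _ _)).trans (mem_lt hz).le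
      exact H92.mem_jn_even.1 (hp (h6 z hz' hz))
    · have hz' : z ≤ F := (H92.le_two z).trans (mem_lt hz).le
      intro hc
      exact hq (h7 z hz' hz) (H92.mem_jn_even.2 hc)

end Pool.Agent.BSN.H20
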