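import Pool.Agent.Helper26_BSN.Stmts

/-!
# Module QF: freshness of the families of contradictory pairs
-/

namespace Pool.Agent.BSN.H20

open Filter Cardinal Pool.Agent.BSig Pool.Agent.BSN

variable {τ : Tower}

theorem d0_contra {n : ℕ} {t t' : (Fin n → (MMt τ)) → (MMt τ)} (ht : IsTerm t) (ht' : IsTerm t') :
    IsDelta0 (fun v => Contra (t v) (t' v)) := by
  refine IsDelta0.ex ht ?_
  refine IsDelta0.ex ht'.tail ?_
  -- variables: 0 = K', 1 = K
  refine IsDelta0.and ?_ ?_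
  · refine IsDelta0.or ?_ ?_
    · exact (IsDelta0.eq ht.tail.tail (IsTerm.var 1).twomul).and
        (IsDelta0.eq ht'.tail.tail ((IsTerm.var 0).twomul.addc 1))
    · exact (IsDelta0.eq ht.tail.tail ((IsTerm.var 1).twomul.addc 1)).and
        (IsDelta0.eq ht'.tail.tail (IsTerm.var 0).twomul)
  · refine IsDelta0.ex (IsTerm.var 1) ?_
    exact (IsDelta0.mem (IsTerm.var 0) (IsTerm.var 2)).and
      (IsDelta0.mem (IsTerm.var 0) (IsTerm.var 1))

theorem d0_uni {n : ℕ} {u r r' : (Fin n → (MMt τ)) → (MMt τ)} (hu : IsTerm u) (hr : IsTerm r)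
    (hr' : IsTerm r') : IsDelta0 (fun v => Uni (u v) (r v) (r' v)) := by
  refine IsDelta0.all ((hu.add hr).add hr') ?_
  exact (IsDelta0.mem (IsTerm.var 0) hu.tail).iff
    ((IsDelta0.mem (IsTerm.var 0) hr.tail).or (IsDelta0.mem (IsTerm.var 0) hr'.tail))

/-- The condition defining the family. -/
def RQ (φ : (Fin 5 → (MMt τ)) → Prop) (k : ℕ) (v : Fin 3 → (MMt τ)) : Prop :=
  ∃ r, r ≤ v 1 ∧ ∃ r', r' ≤ v 1 ∧ ∃ t, t ≤ v 1 ∧ ∃ t', t' ≤ v 1 ∧
    (Crd r k ∧ Crd r' k ∧ ¬ Cfl r r ∧ ¬ Cfl r' r' ∧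
      Frc φ (v 1) k (v 0) r t ∧ Frc φ (v 1) k (v 0) r' t' ∧ Contra t t' ∧ Uni (v 2) r r')

theorem d0_RQ {φ : (Fin 5 → (MMt τ)) → Prop} (hφ : IsDelta0 φ) (k : ℕ) : IsDelta0 (RQ φ k) := by
  have h1 : IsTerm (fun v : Fin 3 → (MMt τ) => v 1) := IsTerm.var 1
  have h0 : IsTerm (fun v : Fin 3 → (MMt τ) => v 0) := IsTerm.var 0
  have h2 : IsTerm (fun v : Fin 3 → (MMt τ) => v 2) := IsTerm.var 2
  refine IsDelta0.ex h1 ?_
  refine IsDelta0.ex h1.tail ?_
  refine IsDelta0.ex h1.tail.tail ?_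
  refine IsDelta0.ex h1.tail.tail.tail ?_
  -- variables: 0 = t', 1 = t, 2 = r', 3 = r
  refine (IsDelta0.crd (IsTerm.var 3) (IsTerm.param _)).and ?_
  refine (IsDelta0.crd (IsTerm.var 2) (IsTerm.param _)).and ?_
  refine (IsDelta0.cfl (IsTerm.var 3) (IsTerm.var 3)).not.and ?_
  refine (IsDelta0.cfl (IsTerm.var 2) (IsTerm.var 2)).not.and ?_
  refine (IsDelta0.frc hφ h1.tail.tail.tail.tail (IsTerm.param _) h0.tail.tail.tail.tail
    (IsTerm.var 3) (IsTerm.var 1)).and ?_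
  refine (IsDelta0.frc hφ h1.tail.tail.tail.tail (IsTerm.param _) h0.tail.tail.tail.tail
    (IsTerm.var 2) (IsTerm.var 0)).and ?_
  refine (d0_contra (IsTerm.var 1) (IsTerm.var 0)).and ?_
  exact d0_uni h2.tail.tail.tail.tail (IsTerm.var 3) (IsTerm.var 2)

theorem mono_RQ (hmono : MonoStmt τ) {φ : (Fin 5 → (MMt τ)) → Prop} (hφ : IsDelta0 φ) (k : ℕ)
    (m m' α α' F : (MMt τ)) (hm : m' ≤ m) (hα : α ≤ α') (h : RQ φ k ![m, α, F]) :
    RQ φ k ![m', α', F] := by
  obtain ⟨r, hr, r', hr', t, ht, t', ht', h1, h2, h3, h4, h5, h6, h7, h8⟩ := h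
  exact ⟨r, hr.trans hα, r', hr'.trans hα, t, ht.trans hα, t', ht'.trans hα, h1, h2, h3, h4,
    (hmono φ hφ).2 _ _ _ _ _ _ _ _ hα le_rfl hm h5, (hmono φ hφ).2 _ _ _ _ _ _ _ _ hα le_rfl hm h6,
    h7, h8⟩

/-- The condition with the code fixed, as a binary relation. -/
theorem sci_RQ (hsci : SciStmt τ) (hmono : MonoStmt τ) {φ : (Fin 5 → (MMt τ)) → Prop}
    (hφ : IsDelta0 φ) (k : ℕ) (F : (MMt τ)) :
    (∀ m : ℕ, ∃ α, RQ φ k ![(m : (MMt τ)), α, F]) ↔ ∃ y α, Infl y ∧ RQ φ k ![y, α, F] := by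
  have hd : IsDelta0 (fun v : Fin 2 → (MMt τ) => RQ φ k ![v 0, v 1, F]) := by
    refine ((d0_RQ hφ k).subst (F := ![fun v : Fin 2 → (MMt τ) => v 0, fun v => v 1, fun _ => F])
      ?_).congr fun v => ?_
    · intro i
      fin_cases i
      · exact IsTerm.var 0
      · exact IsTerm.var 1
      · exact IsTerm.param F
    · have : (![v 0, v 1, F] : Fin 3 → (MMt τ)) =
          fun i => (![fun v : Fin 2 → (MMt τ) => v 0, fun v => v 1, fun _ => F] :
            Fin 3 → (Fin 2 → (MMt τ)) → (MMt τ)) i v := by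
        funext i
        fin_cases i <;> rfl
      rw [this]
  exact hsci _ hd fun m m' α α' hm hα h => mono_RQ hmono hφ k m m' α α' F hm hα h

theorem qFresh (hqy : QYStmt τ) (hfs : FreshS1 τ) (hmono : MonoStmt τ) (hsci : SciStmt τ)
    (_hrep : RepBasics τ) : QFresh τ := by
  intro φ hφ k
  have key : QFam φ k = {S : Finset ((MMt τ) × Bool) | S.card ≤ 2 * k ∧ ∃ F, Rep F S ∧
      ∀ m : ℕ, ∃ α, RQ φ k ![(m : (MMt τ)), α, F]} := by
    ext S
    constructor
    · intro hS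
      refine ⟨?_, ?_⟩
      · obtain ⟨R, R', t, t', h1, h2, -, -, -, -, -, h3⟩ := hS
        classical
        have h4 : S = R ∪ R' := by
          apply Finset.coe_injective
          rw [h3, Finset.coe_union]
        rw [h4]
        exact (Finset.card_union_le _ _).trans (by omega)
      · obtain ⟨y, hy, α, r, r', t, t', u, h1, h2, h3, h4, h5, h6, h7, h8, h9⟩ :=
          (hqy φ hφ k S).1 hS
        refine ⟨u, h9, (sci_RQ hsci hmono hφ k u).2 ⟨y, max α (max (max r r') (max t t')), hy, ?_⟩⟩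
        have e1 : r ≤ max α (max (max r r') (max t t')) :=
          (le_max_left r r').trans ((le_max_left _ _).trans (le_max_right _ _))
        have e2 : r' ≤ max α (max (max r r') (max t t')) :=
          (le_max_right r r').trans ((le_max_left _ _).trans (le_max_right _ _))
        have e3 : t ≤ max α (max (max r r') (max t t')) :=
          (le_max_left t t').trans ((le_max_right _ _).trans (le_max_right _ _))
        have e4 : t' ≤ max α (max (max r r') (max t t')) :=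
          (le_max_right t t').trans ((le_max_right _ _).trans (le_max_right _ _))
        exact ⟨r, e1, r', e2, t, e3, t', e4, h1, h2, h3, h4,
          (hmono φ hφ).2 _ _ _ _ _ _ _ _ (le_max_left _ _) le_rfl le_rfl h5,
          (hmono φ hφ).2 _ _ _ _ _ _ _ _ (le_max_left _ _) le_rfl le_rfl h6, h7, h8⟩
    · rintro ⟨-, F, hF, h⟩
      obtain ⟨y, α, hy, r, -, r', -, t, -, t', -, h1, h2, h3, h4, h5, h6, h7, h8⟩ :=
        (sci_RQ hsci hmono hφ k F).1 h
      exact (hqy φ hφ k S).2 ⟨y, hy, α, r, r', t, t', F, h1, h2, h3, h4, h5, h6, h7, h8, hF⟩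
  rw [key]
  exact hfs (RQ φ k) (d0_RQ hφ k) (mono_RQ hmono hφ k) (2 * k)

end Pool.Agent.BSN.H20
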